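import Pool.Agent.helper82.KN.Spec

/-! Row kn:LC1 (MP_8ffa71_co) -/

set_option autoImplicit false

open Finset Polynomial

namespace Pool.Agent.KN

section

variable {V : Type} [Fintype V] [DecidableEq V]

theorem LC1_card {A M : Matrix V V ℤ} (h : LData A M) (w u : V) (j : ℤ) :
    ∑ v, (if M u v = j then A w v else 0) =
      ((univ.filter fun v => A w v = 1 ∧ M u v = j).card : ℤ) := by
  rw [Finset.card_filter]
  push_cast
  refine Finset.sum_congr rfl fun v _ => ?_
  rcases h.zo w v with h0 | h0
  · simp [h0]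
  · simp [h0]

theorem LC1_bij {A M : Matrix V V ℤ} (h : LData A M) (u w : V) (hw : A u w = 1) :
    (univ.filter fun v => A w v = 1 ∧ M u v = 2).card =
      (univ.filter fun v => A w v = 1 ∧ M u v = 4).card := by
  obtain ⟨p, hp⟩ := h.par
  have hm : M u w = -6 := h.edge u w hw
  have hm' : M w u = -6 := by rw [h.msymm]; exact hm
  apply Finset.card_nbij' (fun v => p w v) (fun v => p w v)
  · intro v hv
    simp only [coe_filter, mem_univ, true_and, Set.mem_ofPred_eq] at hv ⊢
    obtain ⟨h1, h2⟩ := hv
    obtain ⟨a1, -, -, -, a5⟩ := hp w v h1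
    have a6 := a5 u
    rw [h.msymm v u, h.msymm (p w v) u, hm', h2] at a6
    exact ⟨a1, by linarith⟩
  · intro v hv
    simp only [coe_filter, mem_univ, true_and, Set.mem_ofPred_eq] at hv ⊢
    obtain ⟨h1, h2⟩ := hv
    obtain ⟨a1, -, -, -, a5⟩ := hp w v h1
    have a6 := a5 u
    rw [h.msymm v u, h.msymm (p w v) u, hm', h2] at a6
    exact ⟨a1, by linarith⟩
  · intro v hv
    simp only [coe_filter, mem_univ, true_and, Set.mem_ofPred_eq] at hv
    exact (hp w v hv.1).2.2.1
  · intro v hv
    simp only [coe_filter, mem_univ, true_and, Set.mem_ofPred_eq] at hv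
    exact (hp w v hv.1).2.2.1

theorem LC1_sum {A M : Matrix V V ℤ} (h : LData A M) (u : V) (j : ℤ) (hj : j ≠ 12) (hj' : j ≠ -6) :
    ∑ w, A u w * ∑ v, (if M u v = j then A w v else 0) = (j + 4) * nj M u j := by
  have h1 : ∀ w, A u w * ∑ v, (if M u v = j then A w v else 0) =
      ∑ v, (if M u v = j then A u w * A w v else 0) := by
    intro w
    rw [Finset.mul_sum]
    exact Finset.sum_congr rfl fun v _ => by split_ifs <;> simp
  simp_rw [h1]
  rw [Finset.sum_comm]
  have h2 : ∀ v, ∑ w, (if M u v = j then A u w * A w v else 0) =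
      if M u v = j then j + 4 else 0 := by
    intro v
    split_ifs with hv
    · have h3 : ∑ w, A u w * A w v = (A * A) u v := rfl
      rw [h3, h.sq, hv]
      have huv : u ≠ v := by
        rintro rfl
        exact hj (hv.symm.trans (h.mdiag u))
      have hA : A u v = 0 := by
        rcases h.zo u v with h4 | h4
        · exact h4
        · exact absurd (hv.symm.trans (h.edge u v h4)) hj'
      rw [hA, if_neg huv]
      ring
    · simp
  simp_rw [h2]
  rw [← Finset.sum_filter, Finset.sum_const, nsmul_eq_mul]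
  unfold nj
  ring

end

theorem LC1 : LC1_stmt := by
  intro V _ _ A M h u
  have h2 := LC1_sum h u 2 (by norm_num) (by norm_num)
  have h4 := LC1_sum h u 4 (by norm_num) (by norm_num)
  have he : ∑ w, A u w * ∑ v, (if M u v = 2 then A w v else 0) =
      ∑ w, A u w * ∑ v, (if M u v = 4 then A w v else 0) := by
    refine Finset.sum_congr rfl fun w _ => ?_
    rcases h.zo u w with h0 | h0
    · rw [h0, zero_mul, zero_mul]
    · rw [LC1_card h, LC1_card h, LC1_bij h u w h0]
  rw [he, h4] at h2
  have : (6 * nj M u 2 : ℤ) = 8 * nj M u 4 := by linarith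
  exact_mod_cast this

end Pool.Agent.KN
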